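import Pool.Agent.H681.GP.Main

set_option autoImplicit false

/-!
# MP_56b8f5_nt: shifted moments of every order, complete main term and square root error, for almost all shifts

For every `n` (for example `n = 3`: the shifted eighth moment) the integral of
`|ζ(1/2 + it)|² ∏_{j ≤ n} |ζ(1/2 + i(t + c_j))|²` over `[0, S]`, `S ≤ T`, is the integral of an explicit main term up to
`T ^ (1/2 + ε)`, for all `c ∈ [0, T] ^ n` outside of a set of measure at most `T ^ (n - δ)`.
-/

namespace Pool.Agent.Results.MP_56b8f5_nt.SquareRootErrorGenericShifts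

open Complex MeasureTheory

noncomputable section

/-- The vector of all shifts: `c_0 = 0` and `c_1, …, c_n`. -/
def shifts {n : ℕ} (c : Fin n → ℝ) : Fin (n + 1) → ℝ := Fin.cons 0 c

/-- `∏_{j=0}^n |ζ(1/2 + i(t + c_j))|²`, with `c_0 = 0`. -/
def zetaProduct {n : ℕ} (c : Fin n → ℝ) (t : ℝ) : ℝ :=
  ∏ j, ‖riemannZeta (1 / 2 + I * ((t + shifts c j : ℝ) : ℂ))‖ ^ 2

/-- The divisor function `τ_l(m)`: the sum over `d_1 d_2 ⋯ d_k = m` of `∏ j, d_j ^ l_j`. -/
def tau {k : ℕ} (l : Fin k → ℂ) (m : ℕ) : ℂ :=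
  ∑ d ∈ Nat.finMulAntidiag k m, ∏ j, (d j : ℂ) ^ (l j)

/-- The summand of the diagonal series: `τ_{-w + ic}(m) τ_{-w - ic}(m) / m`. -/
def diagonalTerm {k : ℕ} (c : Fin k → ℝ) (w : Fin k → ℂ) (m : ℕ) : ℂ :=
  tau (fun j => -w j + I * c j) m * tau (fun j => -w j - I * c j) m * (m : ℂ)⁻¹

/-- The Euler factor at `p` of the diagonal series, without its polar part. -/
def localFactor {k : ℕ} (c : Fin k → ℝ) (w : Fin k → ℂ) (p : ℕ) : ℂ :=
  (∏ j, ∏ l, (1 - (p : ℂ) ^ (-(1 + w j + w l + I * (c j - c l))))) *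
    ∑' m : ℕ, diagonalTerm c w (p ^ m)

/-- The continuation of the diagonal series `∑_m τ_{-w+ic}(m) τ_{-w-ic}(m) / m` to `|Re w_j| < 1/4`: the Euler product
over the local factors, times the product of `ζ(1 + w_j + w_l + i(c_j - c_l))` over all pairs `j`, `l`. -/
def diagonal {k : ℕ} (c : Fin k → ℝ) (w : Fin k → ℂ) : ℂ :=
  (∏' p : Nat.Primes, localFactor c w p) *
    ∏ j, ∏ l, riemannZeta (1 + w j + w l + I * (c j - c l))

/-- The main term at height `t`: the integral of
`D(w) ∏_j (2 / w_j) ((t + c_j) / 2π) ^ w_j` over `|w_j| = 1/8`, divided by `(2πi) ^ (n + 1)`. -/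
def mainTerm {n : ℕ} (c : Fin n → ℝ) (t : ℝ) : ℂ :=
  ((2 * Real.pi * I) ^ (n + 1))⁻¹ * torusIntegral (fun w : Fin (n + 1) → ℂ =>
    diagonal (shifts c) w *
      ∏ j, (2 / w j * cexp (w j * (Real.log ((t + shifts c j) / (2 * Real.pi)) : ℝ))))
    (fun _ => 0) (fun _ => 1 / 8)

open Pool.Agent.Y969.GP Pool.Agent.TH612.CF

lemma term_eq {k : ℕ} (c : Fin k → ℝ) (w : Fin k → ℂ) (m : ℕ) :
    diagonalTerm c w m = dg (fun j => (c j : ℂ) - I * w j) (fun j => (c j : ℂ) + I * w j) m := by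
  unfold diagonalTerm dg tau Pool.Agent.W182.KO.tau
  congr 2
  · refine Finset.sum_congr rfl fun d _ => Finset.prod_congr rfl fun j _ => ?_
    congr 1
    linear_combination (-w j) * I_sq
  · refine Finset.sum_congr rfl fun d _ => Finset.prod_congr rfl fun j _ => ?_
    congr 1
    linear_combination (-w j) * I_sq

lemma factor_eq {k : ℕ} (c : Fin k → ℝ) (w : Fin k → ℂ) (p : ℕ) :
    localFactor c w p = lh (fun j => (c j : ℂ) - I * w j) (fun j => (c j : ℂ) + I * w j) p := by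
  unfold localFactor lh
  congr 1
  · refine Finset.prod_congr rfl fun j _ => Finset.prod_congr rfl fun l _ => ?_
    congr 2
    linear_combination (-w j - w l) * I_sq
  · refine tsum_congr fun m => ?_
    rw [term_eq]
    unfold dg lt
    rw [Nat.cast_pow]

lemma diagonal_eq {k : ℕ} (c : Fin k → ℝ) (w : Fin k → ℂ) :
    diagonal c w = FH (fun j => (c j : ℂ) - I * w j) (fun j => (c j : ℂ) + I * w j) *
      ∏ j, ∏ l, riemannZeta (1 + w j + w l + I * (c j - c l)) := by
  unfold diagonal FH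
  simp only [factor_eq]

lemma main_eq {n : ℕ} (c : Fin n → ℝ) (t : ℝ) : mainTerm c t = RR c t := by
  unfold mainTerm RR
  congr 1
  congr 1
  funext w
  rw [diagonal_eq]
  rfl

lemma prod_eq {n : ℕ} (c : Fin n → ℝ) (t : ℝ) : zetaProduct c t = ∏ j, ff (t + cc c j) := rfl

lemma series_eq {k : ℕ} (c : Fin k → ℝ) (w : Fin k → ℂ) (hw : ∀ j, 0 < (w j).re ∧ (w j).re < 1 / 4) :
    HasSum (diagonalTerm c w) (diagonal c w) := by
  obtain ⟨δ, hδ, hδw⟩ : ∃ δ : ℝ, 0 < δ ∧ ∀ j, δ ≤ (w j).re := by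
    rcases isEmpty_or_nonempty (Fin k) with h | h
    · exact ⟨1, one_pos, fun j => (h.false j).elim⟩
    · obtain ⟨j0, h0⟩ := Finite.exists_min fun j => (w j).re
      exact ⟨(w j0).re, (hw j0).1, h0⟩
  obtain ⟨q, hq, hqw⟩ : ∃ q : ℝ, q < 1 / 4 ∧ ∀ j, (w j).re ≤ q := by
    rcases isEmpty_or_nonempty (Fin k) with h | h
    · exact ⟨0, by norm_num, fun j => (h.false j).elim⟩
    · obtain ⟨j0, h0⟩ := Finite.exists_max fun j => (w j).re
      exact ⟨(w j0).re, (hw j0).2, h0⟩
  have ha : ∀ j, ((c j : ℂ) - I * w j).im = -(w j).re := fun j => by simp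
  have hb : ∀ j, ((c j : ℂ) + I * w j).im = (w j).re := fun j => by simp
  have hT : Tb q (fun j => (c j : ℂ) - I * w j) (fun j => (c j : ℂ) + I * w j) := by
    intro j
    have h1 := (hw j).1
    have h2 := hqw j
    simp only [ha, hb, abs_neg, abs_of_pos h1]
    exact ⟨h2, h2⟩
  have hz := zh_eq (a := fun j => (c j : ℂ) - I * w j) (b := fun j => (c j : ℂ) + I * w j) hq hT hδ
    (fun j => by
      have h1 := hδw j
      simp only [ha, hb]
      exact ⟨by linarith, h1⟩)
  have hs := (dg_summable (a := fun j => (c j : ℂ) - I * w j) (b := fun j => (c j : ℂ) + I * w j) hδ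
    (fun j => by
      have h1 := hδw j
      simp only [ha, hb]
      exact ⟨by linarith, h1⟩)).of_norm
  have e : diagonalTerm c w = fun m =>
      dg (fun j => (c j : ℂ) - I * w j) (fun j => (c j : ℂ) + I * w j) m :=
    funext fun m => term_eq c w m
  have e2 : diagonal c w = ∑' m, dg (fun j => (c j : ℂ) - I * w j) (fun j => (c j : ℂ) + I * w j) m := by
    rw [← hz, diagonal_eq]
    congr 1
    refine Finset.prod_congr rfl fun j _ => Finset.prod_congr rfl fun l _ => ?_
    congr 1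
    linear_combination (w j + w l) * I_sq
  rw [e, e2]
  exact hs.hasSum

lemma cont {n : ℕ} (c : Fin n → ℝ) : Continuous (zetaProduct c) := by
  have h : ∀ x : ℝ, Continuous fun t : ℝ => ff (t + x) := fun x =>
    Pool.Agent.Y86.GP.ff_cont.comp (continuous_id.add continuous_const)
  have e : zetaProduct c = fun t : ℝ => ∏ j, ff (t + shifts c j) := funext fun t => prod_eq c t
  rw [e]
  exact continuous_finsetProd _ fun j _ => h (shifts c j)

/-- **Shifted moments of every order with the complete main term and square root error, for almost all shifts.**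

* The integrand is continuous, and for `0 < Re w_j < 1/4` the function `D(w)` is the sum of the (diagonal) series
  `∑_m τ_{-w+ic}(m) τ_{-w-ic}(m) / m`.
* For all `n` and `ε > 0` there are `δ > 0` and `T₀` such that for all `T ≥ T₀` and `0 ≤ S ≤ T`, the following holds for all
  `c ∈ [0, T] ^ n` outside of a set of measure at most `T ^ (n - δ)`: the main term is integrable on `[0, S]`, and
  `|∫_0^S |ζ(1/2 + it)|² ∏_{j ≤ n} |ζ(1/2 + i(t + c_j))|² dt - ∫_0^S mainTerm c t dt| ≤ T ^ (1/2 + ε)`. -/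
theorem result :
    (∀ (n : ℕ) (c : Fin n → ℝ), Continuous (zetaProduct c)) ∧
    (∀ (k : ℕ) (c : Fin k → ℝ) (w : Fin k → ℂ), (∀ j, 0 < (w j).re ∧ (w j).re < 1 / 4) →
      HasSum (diagonalTerm c w) (diagonal c w)) ∧
    ∀ (n : ℕ) (ε : ℝ), 0 < ε → ∃ δ T₀ : ℝ, 0 < δ ∧ ∀ T S : ℝ, T₀ ≤ T → 0 ≤ S → S ≤ T →
      volume {c : Fin n → ℝ | (∀ j, 0 ≤ c j ∧ c j ≤ T) ∧
        ¬ (IntervalIntegrable (mainTerm c) volume 0 S ∧
          ‖((∫ t in (0 : ℝ)..S, zetaProduct c t : ℝ) : ℂ) - ∫ t in (0 : ℝ)..S, mainTerm c t‖ ≤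
            T ^ (1 / 2 + ε))} ≤
        ENNReal.ofReal (T ^ ((n : ℝ) - δ)) := by
  refine ⟨fun n c => cont c, fun k c w hw => series_eq c w hw, fun n ε hε => ?_⟩
  obtain ⟨δ, T₀, hδ, h⟩ := Pool.Agent.H681.GP.gp_full n ε hε
  refine ⟨δ, T₀, hδ, fun T S hT hS hST => ?_⟩
  refine le_trans (le_of_eq ?_) (h T S hT hS hST)
  congr 1
  ext c
  have e1 : mainTerm c = fun t => RR c t := funext fun t => main_eq c t
  have e2 : zetaProduct c = fun t => ∏ j, ff (t + cc c j) := funext fun t => prod_eq c t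
  rw [Set.mem_ofPred_eq, Set.mem_ofPred_eq, e1, e2]

end

end Pool.Agent.Results.MP_56b8f5_nt.SquareRootErrorGenericShifts
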